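import Pool.Agent.helper99.ZP.Spec

set_option autoImplicit false
set_option linter.unusedVariables false

namespace Pool.Agent.ZP

open Finset
open Pool.Agent.helper32.Cant
open Pool.Agent.GA (nrm chi ch St sg flp Psi rc ph pot rpot far nc gf ncs gfs good mj om pick pat et kap mult)
open Pool.Agent.ZR
open scoped ENNReal

lemma FR2_iff (q M K c : ℕ) : q / M = c ↔ q / (M * K) = c / K ∧ q % (M * K) / M = c % K := by
  rw [← Nat.div_div_eq_div_mul, Nat.mod_mul_right_div_self]
  constructor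
  · rintro rfl; exact ⟨rfl, rfl⟩
  · rintro ⟨h1, h2⟩
    rw [← Nat.div_add_mod (q / M) K, h1, h2, Nat.div_add_mod]

lemma FR2_img {α β : Type} [DecidableEq β] (T : Finset α) (g : α → β) (f : β → ℝ)
    (hf : ∀ x, 0 ≤ f x) : ∑ x ∈ T.image g, f x ≤ ∑ t ∈ T, f (g t) := by
  rw [← Finset.sum_fiberwise_of_maps_to (s := T) (t := T.image g) (g := g)
    (fun x hx => Finset.mem_image_of_mem g hx) (fun t => f (g t))]
  refine Finset.sum_le_sum fun x hx => ?_
  obtain ⟨t, ht, htx⟩ := Finset.mem_image.mp hx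
  have h1 : f (g t) ≤ ∑ y ∈ T with g y = x, f (g y) :=
    Finset.single_le_sum (f := fun y => f (g y)) (fun y _ => hf _)
      (Finset.mem_filter.mpr ⟨ht, htx⟩)
  rw [htx] at h1
  exact h1

/-- the first digits -/
def FR2_hi (n : ℕ) (q : ℕ × ℕ) : ℕ × ℕ := (q.1 / 3 ^ n, q.2 / 3 ^ n)

/-- the other digits -/
def FR2_lo (n : ℕ) (q : ℕ × ℕ) : ℕ × ℕ := (q.1 % 3 ^ n, q.2 % 3 ^ n)

/-- join -/
def FR2_jn (n : ℕ) (d q : ℕ × ℕ) : ℕ × ℕ := (q.1 + d.1 * 3 ^ n, q.2 + d.2 * 3 ^ n)

lemma FR2_join (n : ℕ) (q : ℕ × ℕ) : FR2_jn n (FR2_hi n q) (FR2_lo n q) = q := by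
  refine Prod.ext ?_ ?_
  · simp only [FR2_jn, FR2_hi, FR2_lo]
    rw [mul_comm, add_comm]; exact Nat.div_add_mod _ _
  · simp only [FR2_jn, FR2_hi, FR2_lo]
    rw [mul_comm, add_comm]; exact Nat.div_add_mod _ _

lemma FR2_hij (n : ℕ) (d q : ℕ × ℕ) (h1 : q.1 < 3 ^ n) (h2 : q.2 < 3 ^ n) :
    FR2_hi n (FR2_jn n d q) = d := by
  have h3 : 0 < 3 ^ n := by positivity
  refine Prod.ext ?_ ?_
  · simp only [FR2_jn, FR2_hi]
    rw [Nat.add_mul_div_right _ _ h3, Nat.div_eq_of_lt h1, zero_add]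
  · simp only [FR2_jn, FR2_hi]
    rw [Nat.add_mul_div_right _ _ h3, Nat.div_eq_of_lt h2, zero_add]

lemma FR2_loj (n : ℕ) (d q : ℕ × ℕ) (h1 : q.1 < 3 ^ n) (h2 : q.2 < 3 ^ n) :
    FR2_lo n (FR2_jn n d q) = q := by
  refine Prod.ext ?_ ?_
  · simp only [FR2_jn, FR2_lo]
    rw [Nat.add_mul_mod_self_right, Nat.mod_eq_of_lt h1]
  · simp only [FR2_jn, FR2_lo]
    rw [Nat.add_mul_mod_self_right, Nat.mod_eq_of_lt h2]

/-- the part of `E` with first digits `d` -/
def FR2_E (n : ℕ) (E : Finset (ℕ × ℕ)) (d : ℕ × ℕ) : Finset (ℕ × ℕ) :=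
  (Finset.range (3 ^ n) ×ˢ Finset.range (3 ^ n)).filter (fun q => FR2_jn n d q ∈ E)

lemma FR2_memE (n : ℕ) (E : Finset (ℕ × ℕ)) (d q : ℕ × ℕ) :
    q ∈ FR2_E n E d ↔ q.1 < 3 ^ n ∧ q.2 < 3 ^ n ∧ FR2_jn n d q ∈ E := by
  unfold FR2_E
  rw [Finset.mem_filter, Finset.mem_product, Finset.mem_range, Finset.mem_range, and_assoc]

lemma FR2_sum (n : ℕ) (E : Finset (ℕ × ℕ)) (aa : ℕ × ℕ → ℕ × ℕ → ℝ) (d : ℕ × ℕ)
    (P : ℕ × ℕ → Prop) [DecidablePred P] :
    ∑ q ∈ E with (FR2_hi n q = d ∧ P (FR2_lo n q)), aa (FR2_hi n q) (FR2_lo n q) =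
      ∑ q ∈ FR2_E n E d with P q, aa d q := by
  have h3 : 0 < 3 ^ n := by positivity
  refine Finset.sum_nbij' (fun q => FR2_lo n q) (fun q => FR2_jn n d q) ?_ ?_ ?_ ?_ ?_
  · intro q hq
    obtain ⟨hq1, hq2, hq3⟩ := Finset.mem_filter.mp hq
    refine Finset.mem_filter.mpr ⟨(FR2_memE _ _ _ _).mpr ⟨Nat.mod_lt _ h3, Nat.mod_lt _ h3, ?_⟩,
      hq3⟩
    rw [← hq2, FR2_join]; exact hq1
  · intro q hq
    obtain ⟨hq1, hq2⟩ := Finset.mem_filter.mp hq
    obtain ⟨hq3, hq4, hq5⟩ := (FR2_memE _ _ _ _).mp hq1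
    refine Finset.mem_filter.mpr ⟨hq5, FR2_hij _ _ _ hq3 hq4, ?_⟩
    rw [FR2_loj _ _ _ hq3 hq4]; exact hq2
  · intro q hq
    obtain ⟨hq1, hq2, hq3⟩ := Finset.mem_filter.mp hq
    rw [← hq2, FR2_join]
  · intro q hq
    obtain ⟨hq1, hq2⟩ := Finset.mem_filter.mp hq
    obtain ⟨hq3, hq4, hq5⟩ := (FR2_memE _ _ _ _).mp hq1
    exact FR2_loj _ _ _ hq3 hq4
  · intro q hq
    obtain ⟨hq1, hq2, hq3⟩ := Finset.mem_filter.mp hq
    rw [hq2]

/-- FR2: the discrete Frostman lemma for squares. -/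
theorem FR2 : FR2_stmt := by
  intro n
  induction n with
  | zero =>
    intro ψ hψ E hE
    by_cases h0 : ((0, 0) : ℕ × ℕ) ∈ E
    · have hE0 : E = {(0, 0)} := by
        ext q
        rw [Finset.mem_singleton]
        constructor
        · intro hq
          have h := hE q hq
          simp only [pow_zero, Nat.lt_one_iff] at h
          exact Prod.ext h.1 h.2
        · rintro rfl; exact h0
      refine ⟨fun q => if q = (0, 0) then ψ 0 else 0, {(0, 0, 0)}, ?_, ?_, ?_, ?_, ?_, ?_⟩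
      · intro q
        simp only
        split_ifs
        · exact (hψ 0).le
        · exact le_rfl
      · intro q hq
        have : q ≠ (0, 0) := by rintro rfl; exact hq h0
        simp [this]
      · intro i hi c d
        have hi0 : i = 0 := by omega
        subst hi0
        calc ∑ q ∈ E with (q.1 / 3 ^ (0 - 0) = c ∧ q.2 / 3 ^ (0 - 0) = d),
              (if q = (0, 0) then ψ 0 else 0)
            ≤ ∑ q ∈ E, (if q = (0, 0) then ψ 0 else 0) := by
              refine Finset.sum_le_sum_of_subset_of_nonneg (Finset.filter_subset _ _) ?_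
              intro q _ _
              split_ifs
              · exact (hψ 0).le
              · exact le_rfl
          _ = ψ 0 := by rw [hE0]; simp
      · intro s hs
        rw [Finset.mem_singleton] at hs
        rw [hs]
      · intro q hq
        have h := hE q hq
        simp only [pow_zero, Nat.lt_one_iff] at h
        exact ⟨(0, 0, 0), Finset.mem_singleton_self _, by rw [h.1]; simp, by rw [h.2]; simp⟩
      · rw [hE0]; simp
    · have hE0 : E = ∅ := by
        ext q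
        constructor
        · intro hq
          have h := hE q hq
          simp only [pow_zero, Nat.lt_one_iff] at h
          have hq0 : q = (0, 0) := Prod.ext h.1 h.2
          rw [hq0] at hq
          exact absurd hq h0
        · intro hq; exact absurd hq (Finset.notMem_empty q)
      refine ⟨fun _ => 0, ∅, fun _ => le_rfl, fun _ _ => rfl, ?_, ?_, ?_, ?_⟩
      · intro i _ c d
        simp only [Finset.sum_const_zero]
        exact (hψ i).le
      · intro s hs; exact absurd hs (Finset.notMem_empty s)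
      · intro q hq; rw [hE0] at hq; exact absurd hq (Finset.notMem_empty q)
      · simp
  | succ n ih =>
    intro ψ hψ E hE
    have h3 : 0 < 3 ^ n := by positivity
    have ih' : ∀ d, _ := fun d => ih (fun i => ψ (i + 1)) (fun i => hψ (i + 1)) (FR2_E n E d)
      (fun q hq => ⟨((FR2_memE _ _ _ _).mp hq).1, ((FR2_memE _ _ _ _).mp hq).2.1⟩)
    choose aa AA h1 h2 h3' h4 h5 h6 using ih'
    have hdig : ∀ q ∈ E, FR2_hi n q ∈ Finset.range 3 ×ˢ Finset.range 3 := by
      intro q hq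
      have := hE q hq
      rw [pow_succ] at this
      exact Finset.mem_product.mpr ⟨Finset.mem_range.mpr (Nat.div_lt_of_lt_mul this.1),
        Finset.mem_range.mpr (Nat.div_lt_of_lt_mul this.2)⟩
    set a' : ℕ × ℕ → ℝ := fun q => aa (FR2_hi n q) (FR2_lo n q) with ha'
    have ha0 : ∀ q, 0 ≤ a' q := fun q => h1 _ _
    have haE : ∀ q, q ∉ E → a' q = 0 := by
      intro q hq
      apply h2
      intro hmem
      have := ((FR2_memE _ _ _ _).mp hmem).2.2
      rw [FR2_join] at this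
      exact hq this
    -- windows of positive level
    have hwin : ∀ i ≤ n, ∀ c d, ∑ q ∈ E with (q.1 / 3 ^ (n - i) = c ∧ q.2 / 3 ^ (n - i) = d), a' q
        ≤ ψ (i + 1) := by
      intro i hi c d
      have hN : 3 ^ (n - i) * 3 ^ i = 3 ^ n := by
        rw [← pow_add, Nat.sub_add_cancel hi]
      have hset : (E.filter (fun q => q.1 / 3 ^ (n - i) = c ∧ q.2 / 3 ^ (n - i) = d)) =
          E.filter (fun q => FR2_hi n q = (c / 3 ^ i, d / 3 ^ i) ∧
            ((FR2_lo n q).1 / 3 ^ (n - i) = c % 3 ^ i ∧ (FR2_lo n q).2 / 3 ^ (n - i) = d % 3 ^ i)) := by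
        refine Finset.filter_congr fun q _ => ?_
        rw [FR2_iff q.1 (3 ^ (n - i)) (3 ^ i) c, FR2_iff q.2 (3 ^ (n - i)) (3 ^ i) d, hN]
        simp only [FR2_hi, FR2_lo, Prod.mk.injEq]
        tauto
      rw [hset]
      have := FR2_sum n E aa (c / 3 ^ i, d / 3 ^ i)
        (fun x => x.1 / 3 ^ (n - i) = c % 3 ^ i ∧ x.2 / 3 ^ (n - i) = d % 3 ^ i)
      simp only [ha']
      rw [this]
      exact h3' _ i hi _ _
    -- the total
    have htot : ∑ q ∈ E, a' q =
        ∑ d ∈ Finset.range 3 ×ˢ Finset.range 3, ∑ q ∈ FR2_E n E d, aa d q := by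
      rw [← Finset.sum_fiberwise_of_maps_to (s := E) (t := Finset.range 3 ×ˢ Finset.range 3)
        (g := fun q => FR2_hi n q) (fun q hq => hdig q hq)]
      refine Finset.sum_congr rfl fun d _ => ?_
      have := FR2_sum n E aa d (fun _ => True)
      simp only [and_true, Finset.filter_true] at this
      exact this
    by_cases hS : ∑ q ∈ E, a' q ≤ ψ 0
    · let T : Finset (Σ _ : ℕ × ℕ, ℕ × ℕ × ℕ) := (Finset.range 3 ×ˢ Finset.range 3).sigma AA
      let g : (Σ _ : ℕ × ℕ, ℕ × ℕ × ℕ) → ℕ × ℕ × ℕ := fun s =>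
        (s.2.1 + 1, s.1.1 * 3 ^ s.2.1 + s.2.2.1, s.1.2 * 3 ^ s.2.1 + s.2.2.2)
      refine ⟨a', T.image g, ha0, haE, ?_, ?_, ?_, ?_⟩
      · intro i hi c d
        rcases Nat.eq_zero_or_pos i with h0 | hpos
        · subst h0
          refine le_trans ?_ hS
          exact Finset.sum_le_sum_of_subset_of_nonneg (Finset.filter_subset _ _)
            (fun q _ _ => ha0 q)
        · obtain ⟨j, rfl⟩ : ∃ j, i = j + 1 := ⟨i - 1, by omega⟩
          have := hwin j (by omega) c d
          rw [Nat.add_sub_add_right]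
          exact this
      · intro s hs
        obtain ⟨t, ht, rfl⟩ := Finset.mem_image.mp hs
        obtain ⟨_, ht2⟩ := Finset.mem_sigma.mp ht
        have := h4 t.1 t.2 ht2
        simp only [g]
        omega
      · intro q hq
        have hqE : FR2_lo n q ∈ FR2_E n E (FR2_hi n q) := by
          refine (FR2_memE _ _ _ _).mpr ⟨Nat.mod_lt _ h3, Nat.mod_lt _ h3, ?_⟩
          rw [FR2_join]; exact hq
        obtain ⟨s, hs, hs2, hs3⟩ := h5 (FR2_hi n q) (FR2_lo n q) hqE
        have hs1 := h4 _ s hs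
        have hN : 3 ^ (n - s.1) * 3 ^ s.1 = 3 ^ n := by
          rw [← pow_add, Nat.sub_add_cancel hs1]
        have key : ∀ x y : ℕ, x % 3 ^ n / 3 ^ (n - s.1) = y →
            x / 3 ^ (n - s.1) = x / 3 ^ n * 3 ^ s.1 + y := by
          intro x y hxy
          rw [← hN, Nat.mod_mul_right_div_self] at hxy
          have h7 : x / 3 ^ n = x / 3 ^ (n - s.1) / 3 ^ s.1 := by
            rw [Nat.div_div_eq_div_mul, hN]
          rw [h7, ← hxy, mul_comm]
          exact (Nat.div_add_mod _ _).symm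
        refine ⟨g ⟨FR2_hi n q, s⟩, Finset.mem_image.mpr ⟨⟨FR2_hi n q, s⟩,
          Finset.mem_sigma.mpr ⟨hdig q hq, hs⟩, rfl⟩, ?_, ?_⟩
        · simp only [g]
          rw [Nat.add_sub_add_right]
          exact key _ _ hs2
        · simp only [g]
          rw [Nat.add_sub_add_right]
          exact key _ _ hs3
      · calc ∑ s ∈ T.image g, ψ s.1 ≤ ∑ t ∈ T, ψ (g t).1 :=
              FR2_img T g (fun s => ψ s.1) (fun s => (hψ s.1).le)
          _ = ∑ d ∈ Finset.range 3 ×ˢ Finset.range 3, ∑ s ∈ AA d, ψ (s.1 + 1) := by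
              simp only [T, g]
              rw [Finset.sum_sigma]
          _ ≤ ∑ d ∈ Finset.range 3 ×ˢ Finset.range 3, ∑ q ∈ FR2_E n E d, aa d q :=
              Finset.sum_le_sum fun d _ => h6 d
          _ = ∑ q ∈ E, a' q := htot.symm
    · push Not at hS
      set S := ∑ q ∈ E, a' q with hSdef
      have hSpos : 0 < S := (hψ 0).trans hS
      have hr0 : 0 ≤ ψ 0 / S := div_nonneg (hψ 0).le hSpos.le
      have hr1 : ψ 0 / S ≤ 1 := (div_le_one hSpos).mpr hS.le
      have hmul : ψ 0 / S * S = ψ 0 := div_mul_cancel₀ _ hSpos.ne'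
      refine ⟨fun q => ψ 0 / S * a' q, {(0, 0, 0)}, ?_, ?_, ?_, ?_, ?_, ?_⟩
      · intro q; exact mul_nonneg hr0 (ha0 q)
      · intro q hq; simp only; rw [haE q hq, mul_zero]
      · intro i hi c d
        rw [← Finset.mul_sum]
        rcases Nat.eq_zero_or_pos i with h0 | hpos
        · subst h0
          calc ψ 0 / S * ∑ q ∈ E with (q.1 / 3 ^ (n + 1 - 0) = c ∧ q.2 / 3 ^ (n + 1 - 0) = d), a' q
              ≤ ψ 0 / S * S := by
                refine mul_le_mul_of_nonneg_left ?_ hr0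
                exact Finset.sum_le_sum_of_subset_of_nonneg (Finset.filter_subset _ _)
                  (fun q _ _ => ha0 q)
            _ = ψ 0 := hmul
        · obtain ⟨j, rfl⟩ : ∃ j, i = j + 1 := ⟨i - 1, by omega⟩
          have hw := hwin j (by omega) c d
          rw [Nat.add_sub_add_right]
          have h8 : 0 ≤ ∑ q ∈ E with (q.1 / 3 ^ (n - j) = c ∧ q.2 / 3 ^ (n - j) = d), a' q :=
            Finset.sum_nonneg fun q _ => ha0 q
          calc ψ 0 / S * ∑ q ∈ E with (q.1 / 3 ^ (n - j) = c ∧ q.2 / 3 ^ (n - j) = d), a' q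
              ≤ 1 * ∑ q ∈ E with (q.1 / 3 ^ (n - j) = c ∧ q.2 / 3 ^ (n - j) = d), a' q :=
                mul_le_mul_of_nonneg_right hr1 h8
            _ = ∑ q ∈ E with (q.1 / 3 ^ (n - j) = c ∧ q.2 / 3 ^ (n - j) = d), a' q := one_mul _
            _ ≤ ψ (j + 1) := hw
      · intro s hs
        rw [Finset.mem_singleton] at hs
        rw [hs]; exact Nat.zero_le _
      · intro q hq
        refine ⟨(0, 0, 0), Finset.mem_singleton_self _, ?_, ?_⟩
        · simp only [Nat.sub_zero]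
          exact Nat.div_eq_of_lt (hE q hq).1
        · simp only [Nat.sub_zero]
          exact Nat.div_eq_of_lt (hE q hq).2
      · rw [Finset.sum_singleton, ← Finset.mul_sum, hmul]

end Pool.Agent.ZP
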